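import Pool.Agent.H53.VK.Stm

set_option autoImplicit false

namespace VK

theorem rd3_ray_of_open {v z c : Pt} (h : c ∈ openSegment ℝ v z) : SameRay ℝ (z - v) (c - v) := by
  obtain ⟨a, b, ha, hb, hab, rfl⟩ := h
  have : a • v + b • z - v = b • (z - v) := by
    have : a = 1 - b := by linarith
    rw [this]; module
  rw [this]
  exact SameRay.sameRay_nonneg_smul_right _ hb.le

theorem rd3_ne_of_open {v z c : Pt} (hvz : z ≠ v) (h : c ∈ openSegment ℝ v z) : c ≠ v := by
  obtain ⟨a, b, ha, hb, hab, rfl⟩ := h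
  intro h
  have h1 : b • (z - v) = 0 := by
    have : b • (z - v) = a • v + b • z - v := by
      have : a = 1 - b := by linarith
      rw [this]; module
    rw [this, h, sub_self]
  rcases smul_eq_zero.mp h1 with h2 | h2
  · exact hb.ne' h2
  · exact hvz (sub_eq_zero.mp h2)

theorem rd3_eq_of_ray {v p q : Pt} (hp : p ≠ v) (hq : q ≠ v) (h : SameRay ℝ (p - v) (q - v))
    (h1 : p ∉ openSegment ℝ v q) (h2 : q ∉ openSegment ℝ v p) : p = q := by
  obtain ⟨r, hr, hrq⟩ := h.exists_pos_left (sub_ne_zero.mpr hp) (sub_ne_zero.mpr hq)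
  have hq' : q = v + r • (p - v) := by rw [hrq]; abel
  rcases lt_trichotomy r 1 with hr1 | hr1 | hr1
  · exfalso
    apply h2
    refine ⟨1 - r, r, by linarith, hr, by ring, ?_⟩
    rw [hq']; module
  · rw [hq', hr1, one_smul]; abel
  · exfalso
    apply h1
    refine ⟨1 - r⁻¹, r⁻¹, ?_, inv_pos.mpr hr, by ring, ?_⟩
    · have := inv_lt_one_of_one_lt₀ hr1
      linarith
    · rw [hq']
      have e : r⁻¹ • (v + r • (p - v)) = r⁻¹ • v + (p - v) := by
        rw [smul_add, smul_smul, inv_mul_cancel₀ hr.ne', one_smul]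
      rw [e]; module

theorem RD3_proved : RD3_stmt := by
  classical
  intro A B C v hv hAB hbl
  set N : Set Pt := {p : Pt | p ∈ A ∪ B ∪ C ∧ p ≠ v ∧ ∀ r ∈ A ∪ B ∪ C, r ∉ openSegment ℝ v p} with hN
  set U : Set Pt := {u : Pt | u ∈ A ∧ u ≠ v ∧ ∀ z ∈ B, ¬ SameRay ℝ (u - v) (z - v)} with hU
  have hNfin : N.Finite := (Finset.finite_toSet (A ∪ B ∪ C)).subset (fun p hp => hp.1)
  have hUfin : U.Finite := (Finset.finite_toSet A).subset (fun p hp => hp.1)
  have hex : ∀ p ∈ N \ U, ∃ c ∈ C, c ≠ v ∧ SameRay ℝ (p - v) (c - v) := by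
    rintro p ⟨⟨hp, hpv, hvis⟩, hpU⟩
    rcases Finset.mem_union.mp hp with hp | hp
    · rcases Finset.mem_union.mp hp with hp | hp
      · have : ∃ z ∈ B, SameRay ℝ (p - v) (z - v) := by
          by_contra hcon
          push Not at hcon
          exact hpU ⟨hp, hpv, hcon⟩
        obtain ⟨z, hz, hray⟩ := this
        obtain ⟨c, hc, hcz⟩ := hbl v hv z hz
        have hzv : z ≠ v := by
          rintro rfl
          exact (Finset.disjoint_left.mp hAB hv) hz
        refine ⟨c, hc, rd3_ne_of_open hzv hcz, ?_⟩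
        refine hray.trans (rd3_ray_of_open hcz) ?_
        intro h0
        exact absurd (sub_eq_zero.mp h0) hzv
      · obtain ⟨c, hc, hcz⟩ := hbl v hv p hp
        exact absurd hcz (hvis c (Finset.mem_union_right _ hc))
    · exact ⟨p, hp, hpv, SameRay.refl _⟩
  choose! φ hφC hφv hφr using hex
  have hinj : Set.InjOn φ (N \ U) := by
    intro p hp q hq h
    have hr1 := hφr p hp
    have hr2 := hφr q hq
    rw [← h] at hr2
    have hne := hφv p hp
    have hray : SameRay ℝ (p - v) (q - v) := by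
      refine hr1.trans hr2.symm ?_
      intro h0
      exact absurd (sub_eq_zero.mp h0) hne
    exact rd3_eq_of_ray hp.1.2.1 hq.1.2.1 hray (hq.1.2.2 p hp.1.1) (hp.1.2.2 q hq.1.1)
  have h1 : (N \ U).ncard ≤ C.card := by
    have := Set.ncard_le_ncard_of_injOn (s := N \ U) (t := (C : Set Pt)) φ
      (fun a ha => hφC a ha) hinj (Finset.finite_toSet C)
    rwa [Set.ncard_coe_finset] at this
  have h2 : N ⊆ (N \ U) ∪ U := by
    intro p hp
    by_cases hpu : p ∈ U
    · exact Or.inr hpu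
    · exact Or.inl ⟨hp, hpu⟩
  calc N.ncard ≤ ((N \ U) ∪ U).ncard :=
        Set.ncard_le_ncard h2 ((hNfin.subset Set.diff_subset).union hUfin)
    _ ≤ (N \ U).ncard + U.ncard := Set.ncard_union_le _ _
    _ ≤ C.card + U.ncard := Nat.add_le_add_right h1 _

end VK
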