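import Pool.Agent.H53.VK.Stm

set_option autoImplicit false

namespace VK

/-- points of the line `g = 0`: `u - v = (t u - t v) • w` -/
theorem rd4_sub {g : Fn} (hg : Nc g) {u v : Pt} (hu : ev g u = 0) (hv : ev g v = 0) :
    u - v = ((-g.b * u.1 + g.a * u.2) - (-g.b * v.1 + g.a * v.2)) •
      ((-g.b / (g.a ^ 2 + g.b ^ 2), g.a / (g.a ^ 2 + g.b ^ 2)) : Pt) := by
  have hpos : g.a ^ 2 + g.b ^ 2 ≠ 0 := by
    rcases hg with h | h
    · positivity
    · positivity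
  simp only [ev] at hu hv
  have e : g.a * (u.1 - v.1) + g.b * (u.2 - v.2) = 0 := by linarith
  apply Prod.ext
  · simp only [Prod.fst_sub, Prod.smul_fst, smul_eq_mul]
    rw [mul_div_assoc', eq_div_iff hpos]
    linear_combination (g.a) * e
  · simp only [Prod.snd_sub, Prod.smul_snd, smul_eq_mul]
    rw [mul_div_assoc', eq_div_iff hpos]
    linear_combination (g.b) * e

theorem rd4_ray {g : Fn} (hg : Nc g) {u v z : Pt} (hu : ev g u = 0) (hv : ev g v = 0)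
    (hz : ev g z = 0)
    (h : ((-g.b * v.1 + g.a * v.2) ≤ (-g.b * u.1 + g.a * u.2) ∧
      (-g.b * v.1 + g.a * v.2) ≤ (-g.b * z.1 + g.a * z.2)) ∨
      ((-g.b * u.1 + g.a * u.2) ≤ (-g.b * v.1 + g.a * v.2) ∧
      (-g.b * z.1 + g.a * z.2) ≤ (-g.b * v.1 + g.a * v.2))) :
    SameRay ℝ (u - v) (z - v) := by
  rw [rd4_sub hg hu hv, rd4_sub hg hz hv]
  rcases h with ⟨h1, h2⟩ | ⟨h1, h2⟩
  · exact ((SameRay.refl _).nonneg_smul_left (sub_nonneg.mpr h1)).nonneg_smul_right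
      (sub_nonneg.mpr h2)
  · rw [← sameRay_neg_iff, ← neg_smul, ← neg_smul]
    exact ((SameRay.refl _).nonneg_smul_left (by linarith)).nonneg_smul_right (by linarith)

theorem RD4_proved (h3 : RD3_stmt) : RD4_stmt := by
  classical
  intro A B C g d hg hAB hbl hA hB hd
  set A0 := A.filter (fun z => ev g z = 0) with hA0
  have hne : A0.Nonempty := by
    obtain ⟨a, ha, hga⟩ := hA
    exact ⟨a, Finset.mem_filter.mpr ⟨ha, hga⟩⟩
  obtain ⟨b, hb, hgb⟩ := hB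
  obtain ⟨v1, hv1, hmin⟩ := Finset.exists_min_image A0 (fun z => -g.b * z.1 + g.a * z.2) hne
  obtain ⟨v2, hv2, hmax⟩ := Finset.exists_max_image A0 (fun z => -g.b * z.1 + g.a * z.2) hne
  have hray : ∃ v ∈ A0, ∀ u ∈ A0, SameRay ℝ (u - v) (b - v) := by
    rcases le_total (-g.b * v1.1 + g.a * v1.2) (-g.b * b.1 + g.a * b.2) with h | h
    · refine ⟨v1, hv1, fun u hu => rd4_ray hg (Finset.mem_filter.mp hu).2
        (Finset.mem_filter.mp hv1).2 hgb (Or.inl ⟨hmin u hu, h⟩)⟩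
    · refine ⟨v2, hv2, fun u hu => rd4_ray hg (Finset.mem_filter.mp hu).2
        (Finset.mem_filter.mp hv2).2 hgb (Or.inr ⟨hmax u hu, h.trans (hmin v2 hv2)⟩)⟩
  obtain ⟨v, hv, hvr⟩ := hray
  have hvA : v ∈ A := (Finset.mem_filter.mp hv).1
  have h1 := h3 A B C v hvA hAB hbl
  have h2 := hd v hvA
  have hsub : {u : Pt | u ∈ A ∧ u ≠ v ∧ ∀ z ∈ B, ¬ SameRay ℝ (u - v) (z - v)} ⊆
      ((A \ A0 : Finset Pt) : Set Pt) := by
    rintro u ⟨huA, huv, hu⟩
    rw [Finset.mem_coe, Finset.mem_sdiff]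
    exact ⟨huA, fun hu0 => hu b hb (hvr u hu0)⟩
  have h4 : {u : Pt | u ∈ A ∧ u ≠ v ∧ ∀ z ∈ B, ¬ SameRay ℝ (u - v) (z - v)}.ncard ≤
      (A \ A0).card := by
    have := Set.ncard_le_ncard hsub (Finset.finite_toSet _)
    rwa [Set.ncard_coe_finset] at this
  have h5 : (A \ A0).card + A0.card = A.card :=
    Finset.card_sdiff_add_card_eq_card (Finset.filter_subset _ _)
  omega

end VK
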